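import Pool.Agent.Helper23.SP.Defs2
import Pool.Agent.Helper17.SP.Read

set_option autoImplicit false
set_option linter.unusedSectionVars false

/-!
# Project SP, second version, piece SP2-A2: heavy cells (balls in bins with a product potential)
-/

namespace Pool.Agent.Helper93.SP

open Finset
open Pool.Agent.Helper23.SP
open Pool.Agent.Helper17

section avg

variable {El Y : Type} [Fintype El] [DecidableEq El] [Fintype Y] [DecidableEq Y]

lemma sum_pw (R : Finset El) (G : (El → Y) → ℝ) :
    ∑ ω' : El → Y, ∑ ω'' : El → Y, G (R.piecewise ω' ω'') =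
      (Fintype.card (El → Y) : ℝ) * ∑ ω' : El → Y, G ω' := by
  let σ : (El → Y) × (El → Y) → (El → Y) × (El → Y) :=
    fun x => (R.piecewise x.1 x.2, R.piecewise x.2 x.1)
  have hσ : Function.Involutive σ := by
    intro x
    refine Prod.ext ?_ ?_
    · funext e
      by_cases h : e ∈ R <;> simp [σ, h]
    · funext e
      by_cases h : e ∈ R <;> simp [σ, h]
  have h1 : ∑ x : (El → Y) × (El → Y), G (R.piecewise x.1 x.2) =
      ∑ x : (El → Y) × (El → Y), G x.1 :=
    hσ.bijective.sum_comp (fun x => G x.1)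
  rw [Fintype.sum_prod_type, Fintype.sum_prod_type] at h1
  rw [h1]
  simp only [sum_const, card_univ, nsmul_eq_mul]
  rw [mul_sum]

lemma tower {R R1 : Finset El} (h : R ⊆ R1) (ω : El → Y) (F : (El → Y) → ℝ) :
    ∑ ω' : El → Y, ∑ ω'' : El → Y, F (R1.piecewise (R.piecewise ω ω') ω'') =
      (Fintype.card (El → Y) : ℝ) * ∑ ω' : El → Y, F (R.piecewise ω ω') := by
  rw [← sum_pw R1 (fun η => F (R.piecewise ω η))]
  refine sum_congr rfl fun ω' _ => sum_congr rfl fun ω'' _ => ?_
  congr 1
  funext e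
  by_cases h1 : e ∈ R
  · simp [h1, h h1]
  · by_cases h2 : e ∈ R1 <;> simp [h1, h2]

lemma sum_one (e : El) (f : Y → ℝ) :
    (Fintype.card Y : ℝ) * ∑ ω : El → Y, f (ω e) =
      (Fintype.card (El → Y) : ℝ) * ∑ y, f y := by
  let σ : (El → Y) × Y → (El → Y) × Y := fun x => (Function.update x.1 e x.2, x.1 e)
  have hσ : Function.Involutive σ := by
    intro x
    refine Prod.ext ?_ ?_
    · simp [σ]
    · simp [σ]
  have h1 : ∑ x : (El → Y) × Y, f (x.1 e) = ∑ x : (El → Y) × Y, f x.2 := by
    have := hσ.bijective.sum_comp (fun x : (El → Y) × Y => f (x.1 e))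
    rw [← this]
    refine sum_congr rfl fun x _ => ?_
    simp [σ]
  rw [Fintype.sum_prod_type, Fintype.sum_prod_type] at h1
  simp only [sum_const, card_univ, nsmul_eq_mul] at h1
  rw [← mul_sum] at h1
  exact h1

variable (Φ : Finset El → (El → Y) → ℝ)

/-- Reading one more element. -/
lemma step_one (hY : 0 < Fintype.card Y)
    (hloc : ∀ R ω ω', (∀ e ∈ R, ω e = ω' e) → Φ R ω = Φ R ω')
    (hstep : ∀ R ω e, e ∉ R → ∑ y, Φ (insert e R) (Function.update ω e y) ≤
      (Fintype.card Y : ℝ) * Φ R ω) {R : Finset El} {e : El} (he : e ∉ R) (ζ : El → Y) :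
    ∑ ω'' : El → Y, Φ (insert e R) (R.piecewise ζ ω'') ≤
      (Fintype.card (El → Y) : ℝ) * Φ R ζ := by
  have h1 : ∀ ω'' : El → Y, Φ (insert e R) (R.piecewise ζ ω'') =
      (fun y => Φ (insert e R) (Function.update ζ e y)) (ω'' e) := by
    intro ω''
    apply hloc
    intro e' he'
    by_cases h : e' = e
    · subst h; simp [he]
    · have h2 : e' ∈ R := (mem_insert.1 he').resolve_left h
      simp [h, h2]
  rw [sum_congr rfl fun ω'' _ => h1 ω'']
  have hYr : (0 : ℝ) < Fintype.card Y := by exact_mod_cast hY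
  have h2 := sum_one e (fun y => Φ (insert e R) (Function.update ζ e y))
  have h3 : (Fintype.card Y : ℝ) *
      ∑ ω : El → Y, (fun y => Φ (insert e R) (Function.update ζ e y)) (ω e) ≤
      (Fintype.card Y : ℝ) * ((Fintype.card (El → Y) : ℝ) * Φ R ζ) := by
    rw [h2]
    calc (Fintype.card (El → Y) : ℝ) * ∑ y, Φ (insert e R) (Function.update ζ e y)
        ≤ (Fintype.card (El → Y) : ℝ) * ((Fintype.card Y : ℝ) * Φ R ζ) :=
          mul_le_mul_of_nonneg_left (hstep R ζ e he) (by positivity)
      _ = _ := by ring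
  exact le_of_mul_le_mul_left h3 hYr

/-- Reading a set of elements. -/
lemma step_set (hX : 0 < Fintype.card (El → Y)) (hY : 0 < Fintype.card Y)
    (hloc : ∀ R ω ω', (∀ e ∈ R, ω e = ω' e) → Φ R ω = Φ R ω')
    (hstep : ∀ R ω e, e ∉ R → ∑ y, Φ (insert e R) (Function.update ω e y) ≤
      (Fintype.card Y : ℝ) * Φ R ω) (R : Finset El) (T : Finset El) (ω : El → Y) :
    ∑ ω' : El → Y, Φ (T ∪ R) (R.piecewise ω ω') ≤ (Fintype.card (El → Y) : ℝ) * Φ R ω := by
  have hXr : (0 : ℝ) < Fintype.card (El → Y) := by exact_mod_cast hX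
  induction T using Finset.induction_on with
  | empty =>
    have h1 : ∀ ω' : El → Y, Φ (∅ ∪ R) (R.piecewise ω ω') = Φ R ω := by
      intro ω'
      rw [empty_union]
      apply hloc
      intro e he
      simp [he]
    rw [sum_congr rfl fun ω' _ => h1 ω']
    simp
  | insert a T _ ih =>
    rw [insert_union]
    by_cases ha : a ∈ T ∪ R
    · rw [insert_eq_of_mem ha]; exact ih
    · have hsub : R ⊆ T ∪ R := subset_union_right
      have h1 := tower hsub ω (fun η => Φ (insert a (T ∪ R)) η)
      have h2 : ∑ ω' : El → Y, ∑ ω'' : El → Y,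
          Φ (insert a (T ∪ R)) ((T ∪ R).piecewise (R.piecewise ω ω') ω'') ≤
          ∑ ω' : El → Y, (Fintype.card (El → Y) : ℝ) * Φ (T ∪ R) (R.piecewise ω ω') :=
        sum_le_sum fun ω' _ => step_one Φ hY hloc hstep ha (R.piecewise ω ω')
      rw [← mul_sum] at h2
      have h3 : (Fintype.card (El → Y) : ℝ) *
          ∑ ω' : El → Y, Φ (insert a (T ∪ R)) (R.piecewise ω ω') ≤
          (Fintype.card (El → Y) : ℝ) * ((Fintype.card (El → Y) : ℝ) * Φ R ω) := by
        rw [← h1]
        exact h2.trans (mul_le_mul_of_nonneg_left ih hXr.le)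
      exact le_of_mul_le_mul_left h3 hXr

/-- The potential of the set of all elements that are read. -/
theorem read_pot {V : Type} (hX : 0 < Fintype.card (El → Y)) (hY : 0 < Fintype.card Y)
    (hloc : ∀ R ω ω', (∀ e ∈ R, ω e = ω' e) → Φ R ω = Φ R ω')
    (hstep : ∀ R ω e, e ∉ R → ∑ y, Φ (insert e R) (Function.update ω e y) ≤
      (Fintype.card Y : ℝ) * Φ R ω)
    (S : ℕ → V → Finset El) (nx : ℕ → V → (El → Y) → V)
    (hnx : ∀ t v (ω ω' : El → Y), (∀ e ∈ S t v, ω e = ω' e) → nx t v ω = nx t v ω')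
    (n : ℕ) : ∀ (t : ℕ) (v : V) (R : Finset El) (ω : El → Y),
    ∑ ω' : El → Y, Φ (Proc.rd S nx (R.piecewise ω ω') n t v ∪ R) (R.piecewise ω ω') ≤
      (Fintype.card (El → Y) : ℝ) * Φ R ω := by
  have hXr : (0 : ℝ) < Fintype.card (El → Y) := by exact_mod_cast hX
  induction n with
  | zero =>
    intro t v R ω
    simp only [Proc.rd]
    exact step_set Φ hX hY hloc hstep R ∅ ω
  | succ n ih =>
    intro t v R ω
    have hsub : R ⊆ S t v ∪ R := subset_union_right
    have h1 := tower hsub ω (fun η => Φ (Proc.rd S nx η (n + 1) t v ∪ R) η)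
    have h2 : ∀ ω' : El → Y, ∑ ω'' : El → Y,
        Φ (Proc.rd S nx ((S t v ∪ R).piecewise (R.piecewise ω ω') ω'') (n + 1) t v ∪ R)
          ((S t v ∪ R).piecewise (R.piecewise ω ω') ω'') ≤
        (Fintype.card (El → Y) : ℝ) * Φ (S t v ∪ R) (R.piecewise ω ω') := by
      intro ω'
      refine le_trans (le_of_eq ?_)
        (ih (t + 1) (nx t v (R.piecewise ω ω')) (S t v ∪ R) (R.piecewise ω ω'))
      refine sum_congr rfl fun ω'' _ => ?_
      have h3 : nx t v ((S t v ∪ R).piecewise (R.piecewise ω ω') ω'') =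
          nx t v (R.piecewise ω ω') := by
        apply hnx
        intro e he
        rw [Finset.piecewise_eq_of_mem _ _ _ (mem_union_left _ he)]
      congr 1
      simp only [Proc.rd]
      rw [h3]
      rw [union_comm (S t v), union_assoc]
    have h4 : ∑ ω' : El → Y, ∑ ω'' : El → Y,
        Φ (Proc.rd S nx ((S t v ∪ R).piecewise (R.piecewise ω ω') ω'') (n + 1) t v ∪ R)
          ((S t v ∪ R).piecewise (R.piecewise ω ω') ω'') ≤
        ∑ ω' : El → Y, (Fintype.card (El → Y) : ℝ) * Φ (S t v ∪ R) (R.piecewise ω ω') :=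
      sum_le_sum fun ω' _ => h2 ω'
    rw [← mul_sum] at h4
    have h5 := step_set Φ hX hY hloc hstep R (S t v) ω
    have h6 : (Fintype.card (El → Y) : ℝ) *
        ∑ ω' : El → Y, Φ (Proc.rd S nx (R.piecewise ω ω') (n + 1) t v ∪ R) (R.piecewise ω ω') ≤
        (Fintype.card (El → Y) : ℝ) * ((Fintype.card (El → Y) : ℝ) * Φ R ω) := by
      rw [← h1]
      exact h4.trans (mul_le_mul_of_nonneg_left h5 hXr.le)
    exact le_of_mul_le_mul_left h6 hXr

end avg

section pot

variable {El Y C : Type} [Fintype El] [DecidableEq El] [Fintype Y] [DecidableEq Y] [DecidableEq C]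

/-- The product potential. -/
noncomputable def pot (c : Y → C) (t n' : ℕ) (ρ : ℝ) (R : Finset El) (ω : El → Y) : ℝ :=
  ∏ x ∈ univ.image c, (1 + 4 ^ (R.filter (fun e => c (ω e) = x)).card *
    (ρ ^ n' / ρ ^ R.card) / 2 ^ t)

lemma pot_loc (c : Y → C) (t n' : ℕ) (ρ : ℝ) (R : Finset El) (ω ω' : El → Y)
    (h : ∀ e ∈ R, ω e = ω' e) : pot c t n' ρ R ω = pot c t n' ρ R ω' := by
  unfold pot
  refine prod_congr rfl fun x _ => ?_
  have h1 : R.filter (fun e => c (ω e) = x) = R.filter (fun e => c (ω' e) = x) := by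
    apply filter_congr
    intro e he
    rw [h e he]
  rw [h1]

lemma one_add_sum_le {ι : Type} (s : Finset ι) (a : ι → ℝ) (ha : ∀ x ∈ s, 0 ≤ a x) :
    1 + ∑ x ∈ s, a x ≤ ∏ x ∈ s, (1 + a x) := by
  classical
  induction s using Finset.induction_on with
  | empty => simp
  | insert x s hx ih =>
    rw [sum_insert hx, prod_insert hx]
    have h1 := ih fun y hy => ha y (mem_insert_of_mem hy)
    have h2 := ha x (mem_insert_self x s)
    have h3 : 0 ≤ ∑ y ∈ s, a y := sum_nonneg fun y hy => ha y (mem_insert_of_mem hy)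
    calc 1 + (a x + ∑ y ∈ s, a y) ≤ (1 + a x) * (1 + ∑ y ∈ s, a y) := by nlinarith
      _ ≤ (1 + a x) * ∏ y ∈ s, (1 + a y) := mul_le_mul_of_nonneg_left h1 (by linarith)

lemma card_cells (c : Y → C) (B : ℕ) (hY : 0 < Fintype.card Y)
    (hB : ∀ y, B * (univ.filter (fun y' => c y' = c y)).card = Fintype.card Y) :
    (univ.image c).card = B := by
  have h1 := Finset.card_eq_sum_card_image c (univ : Finset Y)
  have h2 : B * Fintype.card Y = (univ.image c).card * Fintype.card Y := by
    rw [← Finset.card_univ (α := Y)]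
    conv_lhs => rw [h1, mul_sum]
    rw [← smul_eq_mul, ← sum_const]
    refine sum_congr rfl fun x hx => ?_
    obtain ⟨y, _, rfl⟩ := mem_image.1 hx
    rw [hB y, Finset.card_univ]
  exact (Nat.eq_of_mul_eq_mul_right hY h2).symm

lemma pot_step (c : Y → C) (B : ℕ) (hY : 0 < Fintype.card Y)
    (hB : ∀ y, B * (univ.filter (fun y' => c y' = c y)).card = Fintype.card Y)
    (t n' : ℕ) (R : Finset El) (ω : El → Y) (e : El) (he : e ∉ R) :
    ∑ y, pot c t n' (1 + 3 / (B : ℝ)) (insert e R) (Function.update ω e y) ≤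
      (Fintype.card Y : ℝ) * pot c t n' (1 + 3 / (B : ℝ)) R ω := by
  have hcells := card_cells c B hY hB
  obtain ⟨y0⟩ : Nonempty Y := Fintype.card_pos_iff.1 hY
  have hB0 : 0 < B := by
    rcases Nat.eq_zero_or_pos B with h | h
    · have := hB y0; rw [h, zero_mul] at this; omega
    · exact h
  have hBr : (0 : ℝ) < B := by exact_mod_cast hB0
  set ρ : ℝ := 1 + 3 / (B : ℝ) with hρ
  have hρ0 : 0 < ρ := by positivity
  set N : C → ℕ := fun x => (R.filter (fun e' => c (ω e') = x)).card with hN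
  set l : ℝ := ρ ^ n' / ρ ^ (R.card + 1) with hl
  have hl0 : 0 < l := by positivity
  set p : C → ℝ := fun x => 1 + 4 ^ N x * l / 2 ^ t with hp
  have hp0 : ∀ x, 0 < p x := fun x => by simp only [hp]; positivity
  set u : C → ℝ := fun x => 3 * (4 ^ N x * l / 2 ^ t) / p x with hu
  have hu0 : ∀ x, 0 ≤ u x := fun x => by
    simp only [hu]; have := hp0 x; positivity
  -- the potential after reading the label `y`
  have h1 : ∀ y, pot c t n' ρ (insert e R) (Function.update ω e y) =
      (∏ x ∈ univ.image c, p x) * (1 + u (c y)) := by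
    intro y
    unfold pot
    have h2 : ∀ x ∈ univ.image c, (1 + 4 ^ ((insert e R).filter
        (fun e' => c (Function.update ω e y e') = x)).card *
        (ρ ^ n' / ρ ^ (insert e R).card) / 2 ^ t) =
        p x * (if x = c y then 1 + u x else 1) := by
      intro x _
      have h3 : (insert e R).card = R.card + 1 := card_insert_of_notMem he
      have h4 : R.filter (fun e' => c (Function.update ω e y e') = x) =
          R.filter (fun e' => c (ω e') = x) := by
        apply filter_congr
        intro e' he'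
        have : e' ≠ e := fun h => he (h ▸ he')
        rw [Function.update_of_ne this]
      rw [h3, filter_insert, Function.update_self, h4]
      by_cases hx : c y = x
      · subst hx
        rw [if_pos rfl, if_pos rfl, card_insert_of_notMem (by simp [he])]
        have h5 := hp0 (c y)
        simp only [hu]
        rw [mul_add, mul_one, mul_div_cancel₀ _ h5.ne']
        simp only [hp, pow_succ]
        ring
      · rw [if_neg hx, if_neg (fun h => hx h.symm), mul_one]
    rw [prod_congr rfl h2, prod_mul_distrib]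
    congr 1
    rw [prod_ite_eq', if_pos (mem_image_of_mem c (mem_univ y))]
  rw [sum_congr rfl fun y _ => h1 y, ← mul_sum]
  -- the sum over the labels
  have h2 : (B : ℝ) * ∑ y : Y, (1 + u (c y)) =
      (Fintype.card Y : ℝ) * ∑ x ∈ univ.image c, (1 + u x) := by
    rw [Finset.sum_comp (fun x => 1 + u x) c, mul_sum, mul_sum]
    refine sum_congr rfl fun x hx => ?_
    obtain ⟨y, _, rfl⟩ := mem_image.1 hx
    rw [nsmul_eq_mul, ← mul_assoc]
    congr 1
    exact_mod_cast hB y
  have h3 : ∑ x ∈ univ.image c, (1 + u x) = (B : ℝ) * (1 + ∑ x ∈ univ.image c, u x / B) := by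
    rw [sum_add_distrib, sum_const, hcells, nsmul_eq_mul, mul_one, ← sum_div, mul_add, mul_one,
      mul_div_cancel₀ _ hBr.ne']
  have h4 : ∑ y : Y, (1 + u (c y)) =
      (Fintype.card Y : ℝ) * (1 + ∑ x ∈ univ.image c, u x / B) := by
    rw [h3] at h2
    have h5 : (B : ℝ) * ∑ y : Y, (1 + u (c y)) =
        (B : ℝ) * ((Fintype.card Y : ℝ) * (1 + ∑ x ∈ univ.image c, u x / B)) := by
      rw [h2]; ring
    exact mul_left_cancel₀ hBr.ne' h5
  have h5 : (∏ x ∈ univ.image c, p x) * (1 + ∑ x ∈ univ.image c, u x / B) ≤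
      pot c t n' ρ R ω := by
    calc (∏ x ∈ univ.image c, p x) * (1 + ∑ x ∈ univ.image c, u x / B)
        ≤ (∏ x ∈ univ.image c, p x) * ∏ x ∈ univ.image c, (1 + u x / B) := by
          apply mul_le_mul_of_nonneg_left _ (prod_nonneg fun x _ => (hp0 x).le)
          exact one_add_sum_le _ _ fun x _ => div_nonneg (hu0 x) hBr.le
      _ = pot c t n' ρ R ω := by
          rw [← prod_mul_distrib]
          unfold pot
          refine prod_congr rfl fun x _ => ?_
          have h6 := hp0 x
          have h7 : ρ ^ n' / ρ ^ R.card = l * ρ := by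
            rw [hl, pow_succ]
            field_simp
          rw [h7]
          have h8 : p x * (1 + u x / B) = p x + 3 * (4 ^ N x * l / 2 ^ t) / B := by
            simp only [hu]
            field_simp
          rw [h8, hρ]
          simp only [hp, hN]
          ring
  calc (∏ x ∈ univ.image c, p x) * ∑ y : Y, (1 + u (c y))
      = (Fintype.card Y : ℝ) *
        ((∏ x ∈ univ.image c, p x) * (1 + ∑ x ∈ univ.image c, u x / B)) := by rw [h4]; ring
    _ ≤ _ := mul_le_mul_of_nonneg_left h5 (by positivity)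

lemma pot_empty (c : Y → C) (B : ℕ) (hY : 0 < Fintype.card Y)
    (hB : ∀ y, B * (univ.filter (fun y' => c y' = c y)).card = Fintype.card Y)
    (t n' : ℕ) (h20 : 20 * n' ≤ B) (ht : 2 * B ≤ 2 ^ t) (ω : El → Y) :
    pot c t n' (1 + 3 / (B : ℝ)) ∅ ω ≤ 3 := by
  have hcells := card_cells c B hY hB
  obtain ⟨y0⟩ : Nonempty Y := Fintype.card_pos_iff.1 hY
  have hB0 : 0 < B := by
    rcases Nat.eq_zero_or_pos B with h | h
    · have := hB y0; rw [h, zero_mul] at this; omega
    · exact h
  have hBr : (0 : ℝ) < B := by exact_mod_cast hB0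
  unfold pot
  simp only [filter_empty, card_empty, pow_zero, one_mul, div_one, prod_const, hcells]
  have h20r : 20 * (n' : ℝ) ≤ B := by exact_mod_cast h20
  have htr : 2 * (B : ℝ) ≤ 2 ^ t := by exact_mod_cast ht
  have h1 : (1 + 3 / (B : ℝ)) ^ n' ≤ Real.exp (3 / 20) := by
    calc (1 + 3 / (B : ℝ)) ^ n' ≤ (Real.exp (3 / (B : ℝ))) ^ n' := by
          apply pow_le_pow_left₀ (by positivity)
          linarith [Real.add_one_le_exp (3 / (B : ℝ))]
      _ = Real.exp (n' * (3 / (B : ℝ))) := by rw [← Real.exp_nat_mul]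
      _ ≤ Real.exp (3 / 20) := by
          apply Real.exp_le_exp.2
          rw [← mul_div_assoc, div_le_div_iff₀ hBr (by norm_num)]
          linarith
  have h2 : Real.exp (3 / 20) ≤ 2 := by
    have h3 : Real.exp (3 / 20) ≤ Real.exp (Real.log 2) := by
      apply Real.exp_le_exp.2
      linarith [Real.log_two_gt_d9]
    rwa [Real.exp_log (by norm_num)] at h3
  calc (1 + (1 + 3 / (B : ℝ)) ^ n' / 2 ^ t) ^ B
      ≤ (Real.exp ((1 + 3 / (B : ℝ)) ^ n' / 2 ^ t)) ^ B := by
        apply pow_le_pow_left₀ (by positivity)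
        linarith [Real.add_one_le_exp ((1 + 3 / (B : ℝ)) ^ n' / 2 ^ t)]
    _ = Real.exp (B * ((1 + 3 / (B : ℝ)) ^ n' / 2 ^ t)) := by rw [← Real.exp_nat_mul]
    _ ≤ Real.exp 1 := by
        apply Real.exp_le_exp.2
        rw [← mul_div_assoc, div_le_one (by positivity)]
        calc (B : ℝ) * (1 + 3 / (B : ℝ)) ^ n' ≤ B * 2 :=
              mul_le_mul_of_nonneg_left (h1.trans h2) hBr.le
          _ ≤ 2 ^ t := by linarith
    _ ≤ 3 := by linarith [Real.exp_one_lt_d9]

lemma pot_heavy (c : Y → C) (B t n' : ℕ) (R : Finset El) (hR : R.card ≤ n') (ω : El → Y) :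
    (2 : ℝ) ^ (heavySet (fun e => c (ω e)) t R).card ≤ pot c t n' (1 + 3 / (B : ℝ)) R ω := by
  set ρ : ℝ := 1 + 3 / (B : ℝ) with hρ
  have hρ1 : 1 ≤ ρ := by
    have : (0 : ℝ) ≤ 3 / (B : ℝ) := by positivity
    linarith
  have hl : 1 ≤ ρ ^ n' / ρ ^ R.card := by
    rw [one_le_div (by positivity)]
    exact pow_le_pow_right₀ hρ1 hR
  -- the heavy cells
  have h1 : (heavySet (fun e => c (ω e)) t R).card =
      ∑ x ∈ univ.image c, ((heavySet (fun e => c (ω e)) t R).filter
        (fun e => c (ω e) = x)).card := by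
    apply Finset.card_eq_sum_card_fiberwise
    intro e _
    exact mem_image_of_mem c (mem_univ _)
  rw [h1, ← prod_pow_eq_pow_sum]
  unfold pot
  apply prod_le_prod
  · intro x _; positivity
  · intro x _
    set N := (R.filter (fun e => c (ω e) = x)).card with hN
    have h2 : ((heavySet (fun e => c (ω e)) t R).filter (fun e => c (ω e) = x)).card ≤
        if t < N then N else 0 := by
      split_ifs with hx
      · apply card_le_card
        intro e he
        rw [mem_filter] at he ⊢
        exact ⟨(mem_filter.1 he.1).1, he.2⟩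
      · rw [Nat.le_zero, card_eq_zero, filter_eq_empty_iff]
        intro e he hex
        unfold heavySet at he
        simp only [mem_filter, hex] at he
        exact hx he.2
    have h3 : (0 : ℝ) ≤ 4 ^ N * (ρ ^ n' / ρ ^ R.card) / 2 ^ t := by positivity
    split_ifs at h2 with hx
    · calc (2 : ℝ) ^ ((heavySet (fun e => c (ω e)) t R).filter (fun e => c (ω e) = x)).card
          ≤ 2 ^ N := pow_le_pow_right₀ (by norm_num) h2
        _ ≤ 4 ^ N / 2 ^ t := by
            rw [le_div_iff₀ (by positivity)]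
            have h4 : (4 : ℝ) ^ N = 2 ^ N * 2 ^ N := by rw [← mul_pow]; norm_num
            rw [h4]
            apply mul_le_mul_of_nonneg_left _ (by positivity)
            exact pow_le_pow_right₀ (by norm_num) hx.le
        _ ≤ 4 ^ N * (ρ ^ n' / ρ ^ R.card) / 2 ^ t := by
            apply div_le_div_of_nonneg_right _ (by positivity)
            exact le_mul_of_one_le_right (by positivity) hl
        _ ≤ 1 + 4 ^ N * (ρ ^ n' / ρ ^ R.card) / 2 ^ t := by linarith
    · have h5 : ((heavySet (fun e => c (ω e)) t R).filter (fun e => c (ω e) = x)).card = 0 := by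
        omega
      rw [h5, pow_zero]
      linarith

end pot

open Classical in
/-- SP2-A2. Heavy cells: all `B` cells `c` have the same number of labels. -/
theorem read_heavy {El Y V C : Type} [Fintype El] [DecidableEq El] [Fintype Y] [DecidableEq Y]
    [Fintype V] [DecidableEq V] [DecidableEq C] (c : Y → C) (B : ℕ)
    (hB : ∀ y, B * (univ.filter (fun y' => c y' = c y)).card = Fintype.card Y)
    (S : ℕ → V → Finset El) (nx : ℕ → V → (El → Y) → V)
    (hnx : ∀ t v (ω ω' : El → Y), (∀ e ∈ S t v, ω e = ω' e) → nx t v ω = nx t v ω')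
    (v0 : V) (n n' t y : ℕ) (hn' : ∀ ω, (rd S nx v0 ω n).card ≤ n') (h20 : 20 * n' ≤ B)
    (ht : 2 * B ≤ 2 ^ t) :
    (univ.filter (fun ω : El → Y =>
      y ≤ (heavySet (fun e => c (ω e)) t (rd S nx v0 ω n)).card)).card * 2 ^ y ≤
      3 * Fintype.card (El → Y) := by
  rcases isEmpty_or_nonempty (El → Y) with hX | ⟨⟨ω0⟩⟩
  · rw [Finset.eq_empty_of_isEmpty (univ.filter _)]; simp
  rcases isEmpty_or_nonempty El with hE | ⟨⟨e0⟩⟩
  · rcases Nat.eq_zero_or_pos y with hy | hy
    · subst hy
      have := Finset.card_le_univ (univ.filter (fun ω : El → Y =>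
        0 ≤ (heavySet (fun e => c (ω e)) t (rd S nx v0 ω n)).card))
      omega
    · have h1 : (univ.filter (fun ω : El → Y =>
          y ≤ (heavySet (fun e => c (ω e)) t (rd S nx v0 ω n)).card)) = ∅ := by
        rw [Finset.filter_eq_empty_iff]
        intro ω _ h2
        rw [Finset.eq_empty_of_isEmpty (heavySet _ _ _)] at h2
        simp at h2
        omega
      rw [h1]; simp
  have hX : 0 < Fintype.card (El → Y) := Fintype.card_pos_iff.2 ⟨ω0⟩
  have hY : 0 < Fintype.card Y := Fintype.card_pos_iff.2 ⟨ω0 e0⟩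
  have h1 := read_pot (pot c t n' (1 + 3 / (B : ℝ))) hX hY
    (fun R ω ω' h => pot_loc c t n' _ R ω ω' h)
    (fun R ω e he => pot_step c B hY hB t n' R ω e he) S nx hnx n 0 v0 ∅ ω0
  simp only [Finset.piecewise_empty, union_empty] at h1
  have h2 : ∑ ω : El → Y, (2 : ℝ) ^ (heavySet (fun e => c (ω e)) t (rd S nx v0 ω n)).card ≤
      3 * (Fintype.card (El → Y) : ℝ) := by
    calc ∑ ω : El → Y, (2 : ℝ) ^ (heavySet (fun e => c (ω e)) t (rd S nx v0 ω n)).card
        ≤ ∑ ω : El → Y, pot c t n' (1 + 3 / (B : ℝ)) (Proc.rd S nx ω n 0 v0) ω := by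
          refine sum_le_sum fun ω _ => ?_
          rw [← SP.rd_eq]
          exact pot_heavy c B t n' _ (hn' ω) ω
      _ ≤ (Fintype.card (El → Y) : ℝ) * pot c t n' (1 + 3 / (B : ℝ)) ∅ ω0 := h1
      _ ≤ (Fintype.card (El → Y) : ℝ) * 3 :=
          mul_le_mul_of_nonneg_left (pot_empty c B hY hB t n' h20 ht ω0) (by positivity)
      _ = _ := by ring
  have h3 : ((univ.filter (fun ω : El → Y =>
      y ≤ (heavySet (fun e => c (ω e)) t (rd S nx v0 ω n)).card)).card : ℝ) * 2 ^ y ≤
      ∑ ω : El → Y, (2 : ℝ) ^ (heavySet (fun e => c (ω e)) t (rd S nx v0 ω n)).card := by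
    rw [← nsmul_eq_mul, ← sum_const]
    refine le_trans (sum_le_sum fun ω hω => ?_)
      (sum_le_sum_of_subset_of_nonneg (filter_subset _ _) fun ω _ _ => by positivity)
    exact pow_le_pow_right₀ (by norm_num) (mem_filter.1 hω).2
  exact_mod_cast h3.trans h2

end Pool.Agent.Helper93.SP
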